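import Pool.Agent.W110.PG.D
import Pool.Agent.Y820.LB.Adapt2

/-!
# Minors of the pencil `h u - X ^ m P` and its derivative
-/

set_option autoImplicit false
set_option linter.unusedSectionVars false

namespace Pool.Agent.W110.PF

open Polynomial

noncomputable section

section jacobi

variable {A : Type*} [CommRing A] {n : Type*} [Fintype n] [DecidableEq n]

/-- Jacobi's formula over a polynomial ring. -/
theorem derivative_det (M : Matrix n n A[X]) :
    derivative M.det = (M.adjugate * M.map derivative).trace := by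
  have h1 : (M.adjugate * M.map derivative).trace =
      ∑ i, (M.updateCol i (fun k => derivative (M k i))).det := by
    unfold Matrix.trace
    refine Finset.sum_congr rfl fun i _ => ?_
    rw [Matrix.diag_apply, Matrix.mul_apply, ← Matrix.cramer_apply, Matrix.cramer_eq_adjugate_mulVec]
    rfl
  rw [h1, Matrix.det_apply', map_sum]
  simp_rw [Matrix.det_apply']
  rw [Finset.sum_comm]
  refine Finset.sum_congr rfl fun σ _ => ?_
  rw [← Finset.mul_sum]
  have h2 : derivative (((Equiv.Perm.sign σ : ℤ) : A[X]) * ∏ i, M (σ i) i) =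
      ((Equiv.Perm.sign σ : ℤ) : A[X]) * derivative (∏ i, M (σ i) i) := by
    rw [derivative_mul, derivative_intCast, zero_mul, zero_add]
  rw [h2]
  congr 1
  rw [derivative_prod_finset]
  refine Finset.sum_congr rfl fun i _ => ?_
  rw [← Finset.mul_prod_erase Finset.univ (fun j => (M.updateCol i fun k => derivative (M k i)) (σ j) j)
    (Finset.mem_univ i), mul_comm]
  congr 1
  · simp
  · refine Finset.prod_congr rfl fun j hj => ?_
    rw [Matrix.updateCol_ne (Finset.ne_of_mem_erase hj)]

end jacobi

variable {R : Type*} [CommRing R] {n : ℕ}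

/-- the pencil `h u - X ^ m P` -/
def pn (h : ℤ[X]) (m : ℕ) (u : R) (P : Matrix (Fin n) (Fin n) R) : Matrix (Fin n) (Fin n) R[X] :=
  Matrix.of fun i j => (if i = j then h.map (Int.castRingHom R) * C u else 0) - X ^ m * C (P i j)

/-- `z ^ (m + 1) g'(z)` for `g = h / z ^ m` -/
def kq (R : Type*) [CommRing R] (h : ℤ[X]) (m : ℕ) : R[X] :=
  X * derivative (h.map (Int.castRingHom R)) - (m : R[X]) * h.map (Int.castRingHom R)

theorem pn_derivative (h : ℤ[X]) (m : ℕ) (u : R) (P : Matrix (Fin n) (Fin n) R) :
    (X : R[X]) • (pn h m u P).map derivative =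
      (kq R h m * C u) • (1 : Matrix (Fin n) (Fin n) R[X]) + (m : R[X]) • pn h m u P := by
  have key : ∀ c : R, X * derivative (X ^ m * C c : R[X]) = (m : R[X]) * (X ^ m * C c) := by
    intro c
    rw [derivative_mul, derivative_C, mul_zero, add_zero, derivative_X_pow]
    rcases Nat.eq_zero_or_pos m with rfl | hm
    · simp
    · obtain ⟨l, rfl⟩ := Nat.exists_eq_add_of_le' hm
      simp only [Nat.add_sub_cancel, pow_succ, map_natCast]
      ring
  ext1 i j
  simp only [Matrix.smul_apply, Matrix.map_apply, Matrix.add_apply, pn, Matrix.of_apply,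
    smul_eq_mul, Matrix.one_apply]
  by_cases hij : i = j
  · rw [if_pos hij, if_pos hij, mul_one, derivative_sub, mul_sub, key, derivative_mul,
      derivative_C, mul_zero, add_zero]
    unfold kq
    ring
  · rw [if_neg hij, if_neg hij, mul_zero, zero_add, zero_sub, derivative_neg, mul_neg, key, mul_neg]

/-- the derivative of the determinant -/
theorem pn_sum (h : ℤ[X]) (m : ℕ) (u : R) (P : Matrix (Fin n) (Fin n) R) :
    X * derivative (pn h m u P).det =
      kq R h m * C u * ∑ i, (pn h m u P).adjugate i i + (m * n : R[X]) * (pn h m u P).det := by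
  rw [derivative_det]
  have h1 : X * ((pn h m u P).adjugate * (pn h m u P).map derivative).trace =
      ((pn h m u P).adjugate * ((X : R[X]) • (pn h m u P).map derivative)).trace := by
    rw [Matrix.mul_smul, Matrix.trace_smul, smul_eq_mul]
  rw [h1, pn_derivative, Matrix.mul_add, Matrix.trace_add, Matrix.mul_smul, Matrix.mul_smul,
    Matrix.trace_smul, Matrix.trace_smul, mul_one, Matrix.adjugate_mul, Matrix.trace_smul,
    Matrix.trace_one, Fintype.card_fin]
  simp only [smul_eq_mul]
  have h2 : (pn h m u P).adjugate.trace = ∑ i, (pn h m u P).adjugate i i := rfl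
  rw [h2]
  ring

/-- a prime that divides all minors as often as the determinant -/
theorem prime_cases [IsDomain R] [CharZero R] (h : ℤ[X]) (m : ℕ) (u : R)
    (P : Matrix (Fin n) (Fin n) R) (p q : R[X]) (e : ℕ) (he : 1 ≤ e) (hp : Prime p)
    (hF : (pn h m u P).det = p ^ e * q) (hq : ¬ p ∣ q)
    (hG : ∀ i, p ^ e ∣ (pn h m u P).adjugate i i) : p ∣ X ∨ ∃ c : R, p = C c := by
  have h1 : p ^ e ∣ X * derivative (pn h m u P).det := by
    rw [pn_sum]
    refine dvd_add ((Finset.dvd_sum fun i _ => hG i).mul_left _) ?_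
    rw [hF]
    exact (Dvd.intro _ rfl).mul_left _
  obtain ⟨l, rfl⟩ := Nat.exists_eq_add_of_le' he
  rw [hF, derivative_mul, derivative_pow_succ, mul_add] at h1
  have h2 : p ^ (l + 1) ∣ X * (p ^ (l + 1) * derivative q) := (Dvd.intro _ rfl).mul_left _
  have h3 := (dvd_add_left h2).mp h1
  have h4 : X * (C ((l : R) + 1) * p ^ l * derivative p * q) =
      p ^ l * (X * (C ((l : R) + 1) * (derivative p * q))) := by ring
  rw [h4, pow_succ] at h3
  have h5 := (mul_dvd_mul_iff_left (pow_ne_zero l hp.ne_zero)).mp h3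
  rcases hp.dvd_or_dvd h5 with h6 | h6
  · exact Or.inl h6
  right
  rcases hp.dvd_or_dvd h6 with h7 | h7
  · have h8 : C ((l : R) + 1) ≠ (0 : R[X]) := by
      rw [Ne, C_eq_zero]
      exact_mod_cast Nat.succ_ne_zero l
    have h9 := natDegree_le_of_dvd h7 h8
    rw [natDegree_C] at h9
    exact ⟨_, eq_C_of_natDegree_le_zero h9⟩
  rcases hp.dvd_or_dvd h7 with h8 | h8
  · by_cases h9 : derivative p = 0
    · have h10 := natDegree_eq_zero_of_derivative_eq_zero h9
      exact ⟨_, eq_C_of_natDegree_eq_zero h10⟩
    · have h10 := natDegree_le_of_dvd h8 h9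
      by_cases h11 : p.natDegree = 0
      · exact ⟨_, eq_C_of_natDegree_eq_zero h11⟩
      · exact absurd h10 (not_le.mpr (natDegree_derivative_lt h11))
  · exact absurd h8 hq

/-- the top coefficient of the determinant -/
theorem top_coeff (h : ℤ[X]) (m : ℕ) (u : R) (P : Matrix (Fin n) (Fin n) R)
    (hm : m < h.natDegree) :
    (pn h m u P).det.coeff (n * h.natDegree) = ((h.leadingCoeff : R) * u) ^ n := by
  have h1 : ∀ i j, ((pn h m u P) i j).natDegree ≤ h.natDegree := by
    intro i j
    unfold pn
    rw [Matrix.of_apply]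
    refine (natDegree_sub_le _ _).trans (max_le ?_ ?_)
    · split_ifs
      · refine natDegree_mul_le.trans ?_
        rw [natDegree_C, add_zero]
        exact natDegree_map_le
      · simp
    · refine natDegree_mul_le.trans ?_
      rw [natDegree_C, add_zero]
      exact (natDegree_X_pow_le m).trans hm.le
  have h2 : (pn h m u P).det.coeff (n * h.natDegree) =
      (Matrix.of fun i j => ((pn h m u P) i j).coeff h.natDegree).det := by
    rw [Matrix.det_apply', Matrix.det_apply', finsetSum_coeff]
    refine Finset.sum_congr rfl fun σ _ => ?_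
    have h3 := coeff_prod_of_natDegree_le (Finset.univ : Finset (Fin n))
      (fun i => pn h m u P (σ i) i) h.natDegree fun i _ => h1 (σ i) i
    rw [Finset.card_univ, Fintype.card_fin] at h3
    rw [← C_eq_intCast, coeff_C_mul, h3]
    rfl
  have h4 : (Matrix.of fun i j => ((pn h m u P) i j).coeff h.natDegree) =
      ((h.leadingCoeff : R) * u) • (1 : Matrix (Fin n) (Fin n) R) := by
    ext i j
    rw [Matrix.of_apply, Matrix.smul_apply, Matrix.one_apply, smul_eq_mul]
    unfold pn
    rw [Matrix.of_apply, coeff_sub]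
    have h5 : (X ^ m * C (P i j) : R[X]).coeff h.natDegree = 0 := by
      rw [coeff_mul_C, coeff_X_pow, if_neg hm.ne', zero_mul]
    rw [h5, sub_zero]
    split_ifs
    · rw [coeff_mul_C, coeff_map, mul_one]
      rfl
    · simp
  rw [h2, h4, Matrix.det_smul, Matrix.det_one, mul_one, Fintype.card_fin]

/-- the lowest coefficient of the determinant -/
theorem bot_coeff (h : ℤ[X]) (m j : ℕ) (u : R) (P : Matrix (Fin n) (Fin n) R)
    (h' : ℤ[X]) (hh : h = X ^ j * h') (hm : j < m) :
    ∃ D : R[X], (pn h m u P).det = X ^ (j * n) * D ∧ D.coeff 0 = ((h'.coeff 0 : R) * u) ^ n := by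
  have h1 : pn h m u P = (X ^ j : R[X]) • pn h' (m - j) u P := by
    ext1 i l
    rw [Matrix.smul_apply, smul_eq_mul]
    unfold pn
    rw [Matrix.of_apply, Matrix.of_apply, mul_sub]
    have h2 : (X : R[X]) ^ m = X ^ j * X ^ (m - j) := by
      rw [← pow_add]
      congr 1
      omega
    rw [h2, ← mul_assoc]
    congr 1
    split_ifs
    · rw [hh, Polynomial.map_mul, Polynomial.map_pow, map_X, mul_assoc]
    · rw [mul_zero]
  refine ⟨(pn h' (m - j) u P).det, ?_, ?_⟩
  · rw [h1, Matrix.det_smul, Fintype.card_fin, pow_mul]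
  · rw [coeff_zero_eq_eval_zero, ← coe_evalRingHom, RingHom.map_det]
    have h6 : (evalRingHom (0 : R)).mapMatrix (pn h' (m - j) u P) =
        ((h'.coeff 0 : R) * u) • (1 : Matrix (Fin n) (Fin n) R) := by
      ext i l
      rw [RingHom.mapMatrix_apply, Matrix.map_apply, Matrix.smul_apply, Matrix.one_apply,
        smul_eq_mul]
      unfold pn
      rw [Matrix.of_apply, coe_evalRingHom, eval_sub, eval_mul, eval_pow, eval_X,
        zero_pow (by omega), zero_mul, sub_zero]
      split_ifs
      · rw [eval_mul, eval_C, ← coeff_zero_eq_eval_zero, coeff_map, mul_one]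
        rfl
      · simp
    rw [h6, Matrix.det_smul, Matrix.det_one, mul_one, Fintype.card_fin]

/-- constants dividing the determinant -/
theorem const_dvd (R : Type*) [CommRing R] [IsDomain R] [CharZero R] (h : ℤ[X]) (m : ℕ)
    (hg : ∀ c : ℤ, h ≠ C c * X ^ m) :
    ∃ a : ℤ, a ≠ 0 ∧ ∀ (n : ℕ) (u : R) (P : Matrix (Fin n) (Fin n) R),
      (u ≠ 0 → (pn h m u P).det ≠ 0) ∧
      ∀ c : R, Prime c → C c ∣ (pn h m u P).det → c ∣ (a : R) * u := by
  have h0 : h ≠ 0 := by
    intro h1
    apply hg 0
    rw [h1]
    simp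
  by_cases hm : m < h.natDegree
  · refine ⟨h.leadingCoeff, leadingCoeff_ne_zero.mpr h0, fun n u P => ⟨fun hu h1 => ?_,
      fun c hc hd => ?_⟩⟩
    · have h2 := top_coeff h m u P hm
      rw [h1, coeff_zero] at h2
      refine pow_ne_zero n (mul_ne_zero ?_ hu) h2.symm
      exact Int.cast_ne_zero.mpr (leadingCoeff_ne_zero.mpr h0)
    · refine hc.dvd_of_dvd_pow (n := n) ?_
      rw [← top_coeff h m u P hm]
      exact (C_dvd_iff_dvd_coeff c _).mp hd _
  · have hj : h.natTrailingDegree < m := by
      by_contra hj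
      push Not at hm hj
      apply hg h.leadingCoeff
      have h1 : h.natTrailingDegree ≤ h.natDegree := natTrailingDegree_le_natDegree h
      have h2 : h.natDegree = m := by omega
      have h3 : h.natTrailingDegree = m := by omega
      ext i
      rw [coeff_C_mul, coeff_X_pow]
      split_ifs with hi
      · rw [hi, mul_one, ← h2]
        rfl
      · rw [mul_zero]
        rcases lt_or_gt_of_ne hi with h4 | h4
        · exact coeff_eq_zero_of_lt_natTrailingDegree (by omega)
        · exact coeff_eq_zero_of_natDegree_lt (by omega)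
    have h1 : X ^ h.natTrailingDegree ∣ h :=
      X_pow_dvd_iff.mpr fun i hi => coeff_eq_zero_of_lt_natTrailingDegree hi
    obtain ⟨h', hh⟩ := h1
    have h2 : h'.coeff 0 ≠ 0 := by
      have h3 : h.coeff h.natTrailingDegree ≠ 0 := by
        rw [← trailingCoeff]
        exact trailingCoeff_nonzero_iff_nonzero.mpr h0
      intro h4
      apply h3
      have h5 : h.coeff h.natTrailingDegree = (X ^ h.natTrailingDegree * h').coeff
        h.natTrailingDegree := congrArg (fun q : ℤ[X] => q.coeff h.natTrailingDegree) hh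
      rw [coeff_X_pow_mul', if_pos le_rfl, Nat.sub_self, h4] at h5
      exact h5
    refine ⟨h'.coeff 0, h2, fun n u P => ?_⟩
    obtain ⟨D, hD1, hD2⟩ := bot_coeff h m _ u P h' hh hj
    refine ⟨fun hu h3 => ?_, fun c hc hd => ?_⟩
    · rw [hD1] at h3
      rcases mul_eq_zero.mp h3 with h4 | h4
      · exact pow_ne_zero _ X_ne_zero h4
      · rw [h4, coeff_zero] at hD2
        exact pow_ne_zero n (mul_ne_zero (Int.cast_ne_zero.mpr h2) hu) hD2.symm
    · refine hc.dvd_of_dvd_pow (n := n) ?_
      rw [← hD2]
      rw [hD1] at hd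
      have hcp' : Prime (C c : R[X]) := prime_C_iff.mpr hc
      rcases hcp'.dvd_or_dvd hd with h4 | h4
      · exfalso
        have h5 := hcp'.dvd_of_dvd_pow h4
        have h6 := (C_dvd_iff_dvd_coeff c X).mp h5 1
        rw [coeff_X_one] at h6
        exact hc.not_isUnit (isUnit_of_dvd_one h6)
      · exact (C_dvd_iff_dvd_coeff c _).mp h4 0

end

end Pool.Agent.W110.PF
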