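import Pool.Agent.W110.PF.A

/-!
# The pencil over the ring of polynomials in `k + 1` variables
-/

set_option autoImplicit false
set_option linter.unusedSectionVars false

namespace Pool.Agent.W110.PF

open MeasureTheory
open Pool.Agent.H261R2.CM Pool.Agent.W242.IM Pool.Agent.W110.PG

noncomputable section

variable {k n : ℕ}

/-- the pencil `h(z_0) z ^ d - z_0 ^ m P` -/
def pm (h : Polynomial ℤ) (m : ℕ) (P : Matrix (Fin n) (Fin n) (MvPolynomial (Fin k) ℤ))
    (d : Fin k →₀ ℕ) : Matrix (Fin n) (Fin n) (MvPolynomial (Fin (k + 1)) ℤ) :=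
  Matrix.of fun i j => (if i = j then Polynomial.aeval (MvPolynomial.X 0) h *
    MvPolynomial.rename Fin.succ (MvPolynomial.monomial d 1) else 0) -
    MvPolynomial.X 0 ^ m * MvPolynomial.rename Fin.succ (P i j)

/-- `finSuccEquiv` as a ring homomorphism -/
def fs (k : ℕ) : MvPolynomial (Fin (k + 1)) ℤ →+* Polynomial (MvPolynomial (Fin k) ℤ) :=
  ((MvPolynomial.finSuccEquiv ℤ k : _ ≃ₐ[ℤ] _) : _ →+* _)

theorem fs_apply (p : MvPolynomial (Fin (k + 1)) ℤ) : fs k p = MvPolynomial.finSuccEquiv ℤ k p := rfl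

theorem fs_succ (p : MvPolynomial (Fin k) ℤ) :
    fs k (MvPolynomial.rename Fin.succ p) = Polynomial.C p := by
  induction p using MvPolynomial.induction_on with
  | C a => simp [fs_apply]
  | add p q hp hq => rw [map_add, map_add, hp, hq, map_add]
  | mul_X p i hp =>
    rw [map_mul, map_mul, hp, MvPolynomial.rename_X, fs_apply, MvPolynomial.finSuccEquiv_X_succ,
      map_mul]

theorem fs_dvd (p q : MvPolynomial (Fin (k + 1)) ℤ) : fs k p ∣ fs k q ↔ p ∣ q :=
  map_dvd_iff (MvPolynomial.finSuccEquiv ℤ k)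

theorem fs_inj {p q : MvPolynomial (Fin (k + 1)) ℤ} (h : fs k p = fs k q) : p = q :=
  (MvPolynomial.finSuccEquiv ℤ k).injective h

theorem fs_prime {p : MvPolynomial (Fin (k + 1)) ℤ} (h : Prime p) : Prime (fs k p) :=
  (MulEquiv.prime_iff (MvPolynomial.finSuccEquiv ℤ k)).mpr h

theorem fs_pm (h : Polynomial ℤ) (m : ℕ) (P : Matrix (Fin n) (Fin n) (MvPolynomial (Fin k) ℤ))
    (d : Fin k →₀ ℕ) :
    (fs k).mapMatrix (pm h m P d) = pn h m (MvPolynomial.monomial d 1) P := by
  ext1 i j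
  rw [RingHom.mapMatrix_apply, Matrix.map_apply]
  unfold pm pn
  rw [Matrix.of_apply, Matrix.of_apply, map_sub, map_mul, map_pow, fs_succ]
  have h1 : fs k (MvPolynomial.X 0) = Polynomial.X := MvPolynomial.finSuccEquiv_X_zero
  rw [h1]
  congr 1
  split_ifs
  · rw [map_mul, fs_succ]
    congr 1
    have h2 : fs k (Polynomial.aeval (MvPolynomial.X 0) h) =
        MvPolynomial.finSuccEquiv ℤ k (Polynomial.aeval (MvPolynomial.X 0) h) := rfl
    rw [h2, ← Polynomial.aeval_algHom_apply, MvPolynomial.finSuccEquiv_X_zero,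
      Polynomial.aeval_X_left_eq_map]
    rfl
  · rw [map_zero]

theorem fs_det (h : Polynomial ℤ) (m : ℕ) (P : Matrix (Fin n) (Fin n) (MvPolynomial (Fin k) ℤ))
    (d : Fin k →₀ ℕ) : fs k (pm h m P d).det = (pn h m (MvPolynomial.monomial d 1) P).det := by
  rw [← fs_pm, RingHom.map_det]

theorem fs_adj (h : Polynomial ℤ) (m : ℕ) (P : Matrix (Fin n) (Fin n) (MvPolynomial (Fin k) ℤ))
    (d : Fin k →₀ ℕ) (i : Fin n) :
    fs k ((pm h m P d).adjugate i i) =
      (pn h m (MvPolynomial.monomial d 1) P).adjugate i i := by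
  rw [← fs_pm, ← RingHom.map_adjugate]
  rfl

theorem mono_ne (d : Fin k →₀ ℕ) : (MvPolynomial.monomial d 1 : MvPolynomial (Fin k) ℤ) ≠ 0 := by
  rw [Ne, MvPolynomial.monomial_eq_zero]
  exact one_ne_zero

/-- the determinant does not vanish -/
theorem pm_ne (h : Polynomial ℤ) (m : ℕ) (hg : ∀ c : ℤ, h ≠ Polynomial.C c * Polynomial.X ^ m)
    (P : Matrix (Fin n) (Fin n) (MvPolynomial (Fin k) ℤ)) (d : Fin k →₀ ℕ) :
    (pm h m P d).det ≠ 0 := by
  obtain ⟨a, -, ha⟩ := const_dvd (MvPolynomial (Fin k) ℤ) h m hg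
  intro h0
  refine (ha n (MvPolynomial.monomial d 1) P).1 (mono_ne d) ?_
  rw [← fs_det, h0, map_zero]

theorem mM_mono (d : Fin k →₀ ℕ) : mM (MvPolynomial.monomial d 1 : MvPolynomial (Fin k) ℤ) = 1 :=
  J.mM_of_norm_const one_pos fun t => norm_mon d t

/-- a divisor of an integer -/
theorem mM_dvd_int (c : MvPolynomial (Fin k) ℤ) (a : ℤ) (ha : a ≠ 0)
    (hc : Prime c) (hd : c ∣ MvPolynomial.C a) : 2 ≤ mM c := by
  obtain ⟨q, hq⟩ := hd
  have hCa : (MvPolynomial.C a : MvPolynomial (Fin k) ℤ) ≠ 0 := by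
    rw [Ne, MvPolynomial.C_eq_zero]
    exact ha
  have hq0 : q ≠ 0 := by
    rintro rfl
    rw [mul_zero] at hq
    exact hCa hq
  have h1 : (MvPolynomial.C a : MvPolynomial (Fin k) ℤ).totalDegree = c.totalDegree +
      q.totalDegree := by
    rw [hq]
    exact MvPolynomial.totalDegree_mul_of_isDomain hc.ne_zero hq0
  rw [MvPolynomial.totalDegree_C] at h1
  have h2 : c.totalDegree = 0 := by omega
  rw [MvPolynomial.totalDegree_eq_zero_iff_eq_C] at h2
  set b := MvPolynomial.coeff 0 c with hb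
  have hb0 : b ≠ 0 := by
    intro h3
    rw [h3, map_zero] at h2
    exact hc.ne_zero h2
  rw [h2, J.mM_C hb0]
  have h3 : 2 ≤ b.natAbs := by
    by_contra h4
    have h5 : b.natAbs = 1 := by
      have := Int.natAbs_pos.2 hb0
      omega
    have h6 : IsUnit b := Int.isUnit_iff_natAbs_eq.mpr h5
    apply hc.not_isUnit
    rw [h2]
    exact h6.map MvPolynomial.C
  exact_mod_cast h3

/-- if the measure is not one, some prime factor has measure larger than one -/
theorem exists_prime {m : ℕ} (F : MvPolynomial (Fin m) ℤ) (hF : F ≠ 0) (h : mM F ≠ 1) :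
    ∃ p : MvPolynomial (Fin m) ℤ, Prime p ∧ p ∣ F ∧ 1 < mM p := by
  by_contra hcon
  push Not at hcon
  have hu : ∀ x : MvPolynomial (Fin m) ℤ, IsUnit x → mM x = 1 := by
    intro x hx
    rw [J.mM_associated (associated_one_iff_isUnit.mpr hx), ← MvPolynomial.C_1, J.mM_C one_ne_zero]
    simp
  have key : ∀ G : MvPolynomial (Fin m) ℤ, G ≠ 0 → (∀ p, Prime p → p ∣ G → mM p ≤ 1) →
      mM G = 1 := by
    intro G
    refine UniqueFactorizationMonoid.induction_on_prime (P := fun G => G ≠ 0 →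
      (∀ p, Prime p → p ∣ G → mM p ≤ 1) → mM G = 1) G ?_ ?_ ?_
    · intro h0
      exact absurd rfl h0
    · intro x hx _ _
      exact hu x hx
    · intro a p ha hp ih _ h2
      have h3 : mM p = 1 := le_antisymm (h2 p hp (Dvd.intro a rfl)) (one_le_mM p hp.ne_zero)
      rw [mM_mul p a hp.ne_zero ha, h3, one_mul]
      exact ih ha fun q hq hqa => h2 q hq (hqa.mul_left p)
  exact h (key F hF fun p hp hpF => hcon p hp hpF)

/-- **the minors**: if the measure of the determinant is not one and less than two then some prime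
factor of measure larger than one divides some minor less often than the determinant -/
theorem exists_minor (h : Polynomial ℤ) (m : ℕ)
    (hg : ∀ c : ℤ, h ≠ Polynomial.C c * Polynomial.X ^ m)
    (P : Matrix (Fin n) (Fin n) (MvPolynomial (Fin k) ℤ)) (d : Fin k →₀ ℕ)
    (h1 : mM (pm h m P d).det ≠ 1) (h2 : mM (pm h m P d).det < 2) :
    ∃ (i : Fin n) (p : MvPolynomial (Fin (k + 1)) ℤ) (e : ℕ), Prime p ∧ 1 < mM p ∧
      p ^ e ∣ (pm h m P d).det ∧ ¬ p ^ e ∣ (pm h m P d).adjugate i i := by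
  have hF := pm_ne h m hg P d
  obtain ⟨p, hp, hpF, hp1⟩ := exists_prime _ hF h1
  have hfin : FiniteMultiplicity p (pm h m P d).det := FiniteMultiplicity.of_prime_left hp hF
  obtain ⟨q, hq, hq2⟩ := hfin.exists_eq_pow_mul_and_not_dvd
  set e := multiplicity p (pm h m P d).det with he
  have he1 : 1 ≤ e := by
    by_contra h3
    have h4 : e = 0 := by omega
    rw [h4, pow_zero, one_mul] at hq
    rw [hq] at hpF
    exact hq2 hpF
  by_contra hcon
  push Not at hcon
  have h3 : ∀ i, p ^ e ∣ (pm h m P d).adjugate i i := fun i =>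
    hcon i p e hp hp1 (by rw [hq]; exact Dvd.intro _ rfl)
  have h4 := prime_cases h m (MvPolynomial.monomial d 1) P (fs k p) (fs k q) e he1 (fs_prime hp)
    (by rw [← fs_det, hq, map_mul, map_pow]) (by rw [fs_dvd]; exact hq2)
    (fun i => by rw [← fs_adj, ← map_pow, fs_dvd]; exact h3 i)
  have hpl : mM p < 2 := by
    refine lt_of_le_of_lt ?_ h2
    obtain ⟨r, hr⟩ := hpF
    have hr0 : r ≠ 0 := by
      rintro rfl
      rw [mul_zero] at hr
      exact hF hr
    rw [hr, mM_mul p r hp.ne_zero hr0]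
    have h5 := one_le_mM r hr0
    have h6 : 0 < mM p := by linarith
    nlinarith
  rcases h4 with h5 | ⟨c, hc⟩
  · have h6 : fs k (MvPolynomial.X 0) = Polynomial.X := MvPolynomial.finSuccEquiv_X_zero
    rw [← h6, fs_dvd] at h5
    have h7 := mM_one_of_dvd p _ (MvPolynomial.X_ne_zero 0) h5 (J.mM_X 0)
    linarith
  · have h6 : p = MvPolynomial.rename Fin.succ c := fs_inj (by rw [hc, fs_succ])
    have h7 : mM p = mM c := by rw [h6, J.mM_rename]
    have hcp : Prime c := by
      have h8 := fs_prime hp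
      rw [hc] at h8
      exact Polynomial.prime_C_iff.mp h8
    obtain ⟨a, ha, hab⟩ := const_dvd (MvPolynomial (Fin k) ℤ) h m hg
    have h8 := (hab n (MvPolynomial.monomial d 1) P).2 c hcp (by
      rw [← fs_det, ← hc, fs_dvd]
      exact hpF)
    rcases hcp.dvd_or_dvd h8 with h9 | h9
    · have h10 := mM_dvd_int c a ha hcp (by
        have h11 : (MvPolynomial.C a : MvPolynomial (Fin k) ℤ) = ((a : ℤ) : MvPolynomial (Fin k) ℤ) :=
          by simp
        rw [h11]
        exact h9)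
      linarith
    · have h10 := mM_one_of_dvd c _ (mono_ne d) h9 (mM_mono d)
      linarith

end

end Pool.Agent.W110.PF
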