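import Pool.Agent.W110.PF.B

/-!
# Pairs with dominated quotients over the torus
-/

set_option autoImplicit false
set_option linter.unusedSectionVars false

namespace Pool.Agent.W110.PF

open MeasureTheory
open Pool.Agent.H261R2.CM Pool.Agent.W242.IM Pool.Agent.W110.PG
open Pool.Agent.Y820.LB (Dom)

noncomputable section

variable {k n : ℕ}

theorem cons_ae {p : (Fin (k + 1) → ℝ) → Prop} (h : ∀ᵐ τ ∂(cub (k + 1)), p τ) :
    ∀ᵐ t ∂(cub k), ∀ᵐ s ∂seg, p (Fin.cons s t) := by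
  have h1 := (consE_mp k).quasiMeasurePreserving.ae h
  have h2 : ∀ᵐ x ∂(seg.prod (cub k)), p (Fin.cons x.1 x.2) := by
    filter_upwards [h1] with x hx
    rw [← consE_apply]
    exact hx
  have h3 : ∀ᵐ x ∂((cub k).prod seg), p (Fin.cons x.2 x.1) :=
    Measure.measurePreserving_swap.quasiMeasurePreserving.ae h2
  exact Measure.ae_ae_of_ae_prod h3

theorem pair_bound (F G : MvPolynomial (Fin (k + 1)) ℤ) (hF : F ≠ 0) (l : (Fin k → ℝ) → ℝ)
    (hl : Integrable l (cub k))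
    (h : ∀ᵐ t ∂(cub k), ∃ Φ : ℝ → ℂ, Dom (fun s => ‖Φ s‖) (l t) ∧
      ∀ᵐ s : ℝ, ‖tv G (Fin.cons s t)‖ = ‖tv F (Fin.cons s t)‖ * ‖Φ s‖) :
    mx F G ≤ Real.log (mM F) + ∫ t, l t ∂(cub k) := by
  obtain ⟨h1, h2, h3⟩ := cons_facts (Pool.Agent.TH845.KN.integrable_logmax' hF G)
  obtain ⟨h4, h5, h6⟩ := cons_facts (F_integrable hF)
  have h7 := cons_ae (F_zero_null hF)
  have e1 : mx F G = ∫ t, (∫ s, Real.log (max ‖tv F (Fin.cons s t)‖ ‖tv G (Fin.cons s t)‖) ∂seg)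
      ∂(cub k) := h2
  have e2 : Real.log (mM F) = ∫ t, (∫ s, Real.log ‖tv F (Fin.cons s t)‖ ∂seg) ∂(cub k) := by
    unfold mM
    rw [Real.log_exp]
    exact h5
  rw [e1, e2, ← integral_add h4 hl]
  refine integral_mono_ae h1 (h4.add hl) ?_
  filter_upwards [h, h3, h6, h7] with t ht i1 i2 i3
  obtain ⟨Φ, ⟨g, hg1, hg2, hg3⟩, hΦ⟩ := ht
  have hg1' : Integrable g seg := (intervalIntegrable_iff_integrableOn_Icc_of_le zero_le_one).mp hg1
  have e3 : ∫ s, g s ∂seg ≤ l t := by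
    rw [seg_integral]
    exact hg3
  refine le_trans ?_ (add_le_add le_rfl e3)
  rw [← integral_add i2 hg1']
  refine integral_mono_ae i1 (i2.add hg1') ?_
  filter_upwards [i3, ae_restrict_of_ae hΦ, ae_restrict_of_ae hg2] with s j1 j2 j3
  have h9 : 0 < ‖tv F (Fin.cons s t)‖ := norm_pos_iff.mpr j1
  have h10 : max ‖tv F (Fin.cons s t)‖ ‖tv G (Fin.cons s t)‖ ≤
      ‖tv F (Fin.cons s t)‖ * (1 + ‖Φ s‖) := by
    rw [j2]
    refine max_le ?_ ?_
    · nlinarith [j3.1]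
    · nlinarith [j3.1]
  show Real.log (max ‖tv F (Fin.cons s t)‖ ‖tv G (Fin.cons s t)‖) ≤
    Real.log ‖tv F (Fin.cons s t)‖ + g s
  refine (Real.log_le_log (lt_max_of_lt_left h9) h10).trans ?_
  rw [Real.log_mul h9.ne' (by linarith [j3.1])]
  linarith [j3.2]

/-- **the gap for dominated pairs** -/
theorem fam_gap (K : ℝ) : ∃ c : ℝ, 1 < c ∧ c ≤ 2 ∧ ∀ (m : ℕ) (F G p : MvPolynomial (Fin m) ℤ)
    (e : ℕ), F ≠ 0 → mx F G ≤ Real.log (mM F) + K → Prime p → 1 < mM p → p ^ e ∣ F → ¬ p ^ e ∣ G →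
    c ≤ mM F := by
  obtain ⟨c, hc, h⟩ := gap_all (Real.log 2 + K)
  refine ⟨min 2 c, lt_min (by norm_num) hc, min_le_left _ _,
    fun m F G p e hF hK hp hp1 hpF hpG => ?_⟩
  have hG : G ≠ 0 := by
    rintro rfl
    exact hpG (dvd_zero _)
  obtain ⟨a, b, d, hab, ha, hb⟩ := UniqueFactorizationMonoid.exists_reduced_factors F hF G
  have hd0 : d ≠ 0 := by
    rintro rfl
    exact hF (by rw [← ha, zero_mul])
  have ha0 : a ≠ 0 := by
    rintro rfl
    exact hF (by rw [← ha, mul_zero])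
  have hb0 : b ≠ 0 := by
    rintro rfl
    exact hG (by rw [← hb, mul_zero])
  have hpa : p ∣ a := by
    by_contra h1
    apply hpG
    rw [← ha] at hpF
    have h2 := hp.pow_dvd_of_dvd_mul_right e h1 hpF
    rw [← hb]
    exact h2.mul_right b
  have h1 : mM F = mM d * mM a := by rw [← ha, mM_mul d a hd0 ha0]
  have hd1 := one_le_mM d hd0
  have ha1 := one_le_mM a ha0
  have h2 : mx a b ≤ Real.log (mM a) + K := by
    have h3 := mx_mul d a b hd0 ha0
    rw [ha, hb] at h3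
    rw [h1, Real.log_mul (by linarith) (by linarith)] at hK
    linarith
  have h4 : mM p ≤ mM a := by
    obtain ⟨r, hr⟩ := hpa
    have hr0 : r ≠ 0 := by
      rintro rfl
      exact ha0 (by rw [hr, mul_zero])
    rw [hr, mM_mul p r hp.ne_zero hr0]
    have := one_le_mM r hr0
    nlinarith
  have h5 : mM a ≤ mM F := by
    rw [h1]
    nlinarith
  rcases le_or_gt 2 (mM a) with h6 | h6
  · exact (min_le_left _ _).trans (h6.trans h5)
  · have h7 := Real.log_le_log (by linarith : (0:ℝ) < mM a) h6.le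
    rcases h m a b ha0 hb0 hab (by linarith) with h8 | h8
    · linarith
    · exact (min_le_right _ _).trans (h8.trans h5)

/-- the pencil at a point -/
def Dm (h : Polynomial ℤ) (m : ℕ) (A : Matrix (Fin n) (Fin n) ℂ) (z : ℂ) :
    Matrix (Fin n) (Fin n) ℂ :=
  (toC h).eval z • (1 : Matrix (Fin n) (Fin n) ℂ) - z ^ m • A

theorem map_pm (h : Polynomial ℤ) (m : ℕ) (P : Matrix (Fin n) (Fin n) (MvPolynomial (Fin k) ℤ))
    (d : Fin k →₀ ℕ) (t : Fin k → ℝ) (s : ℝ) :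
    (J.tvh (Fin.cons s t)).mapMatrix (pm h m P d) =
      tv (MvPolynomial.monomial d 1) t • Dm h m (sym P d t) (ez s) := by
  have hm0 : tv (MvPolynomial.monomial d 1) t ≠ 0 := mon_ne d t
  ext1 i j
  rw [RingHom.mapMatrix_apply, Matrix.map_apply]
  unfold pm Dm
  rw [Matrix.of_apply, map_sub, map_mul, map_pow, Matrix.smul_apply, Matrix.sub_apply,
    Matrix.smul_apply, Matrix.smul_apply, Matrix.one_apply]
  have e1 : J.tvh (Fin.cons s t) (MvPolynomial.X 0 : MvPolynomial (Fin (k + 1)) ℤ) = ez s := by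
    rw [← J.tv_eq, tv_cons_zero]
  have e2 : ∀ q : MvPolynomial (Fin k) ℤ,
      J.tvh (Fin.cons s t) (MvPolynomial.rename Fin.succ q) = tv q t := by
    intro q
    rw [← J.tv_eq, tv_cons_succ]
  rw [e1, e2]
  simp only [smul_eq_mul]
  unfold sym
  rw [Matrix.of_apply, mul_sub]
  congr 1
  · by_cases hij : i = j
    · rw [if_pos hij, if_pos hij, map_mul, e2, mul_one, mul_comm]
      congr 1
      unfold toC
      rw [Polynomial.eval_map, Polynomial.aeval_def, Polynomial.hom_eval₂, e1]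
      congr 1
      exact RingHom.ext_int _ _
    · rw [if_neg hij, if_neg hij, map_zero, mul_zero, mul_zero]
  · field_simp

theorem norm_det (h : Polynomial ℤ) (m : ℕ) (P : Matrix (Fin n) (Fin n) (MvPolynomial (Fin k) ℤ))
    (d : Fin k →₀ ℕ) (t : Fin k → ℝ) (s : ℝ) :
    ‖tv (pm h m P d).det (Fin.cons s t)‖ = ‖(Dm h m (sym P d t) (ez s)).det‖ := by
  rw [J.tv_eq, RingHom.map_det, map_pm, Matrix.det_smul, norm_mul, norm_pow, norm_mon, one_pow,
    one_mul]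

theorem norm_adj (h : Polynomial ℤ) (m : ℕ) (P : Matrix (Fin n) (Fin n) (MvPolynomial (Fin k) ℤ))
    (d : Fin k →₀ ℕ) (t : Fin k → ℝ) (s : ℝ) (i : Fin n) :
    ‖tv ((pm h m P d).adjugate i i) (Fin.cons s t)‖ =
      ‖(Dm h m (sym P d t) (ez s)).adjugate i i‖ := by
  have h1 : tv ((pm h m P d).adjugate i i) (Fin.cons s t) =
      ((J.tvh (Fin.cons s t)).mapMatrix (pm h m P d)).adjugate i i := by
    rw [← RingHom.map_adjugate]
    rfl
  rw [h1, map_pm, Matrix.adjugate_smul, Matrix.smul_apply, smul_eq_mul, norm_mul, norm_pow,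
    norm_mon, one_pow, one_mul]

/-- the pointwise bound -/
def PB (h : Polynomial ℤ) (m : ℕ) (A : Matrix (Fin n) (Fin n) ℂ) (i : Fin n) (c : ℝ) : Prop :=
  ∃ Φ : ℝ → ℂ, Dom (fun s => ‖Φ s‖) c ∧
    ∀ᵐ s : ℝ, (Dm h m A (ez s)).adjugate i i = (Dm h m A (ez s)).det * Φ s

theorem mx_of_PB (h : Polynomial ℤ) (m : ℕ)
    (hg : ∀ c : ℤ, h ≠ Polynomial.C c * Polynomial.X ^ m)
    (P : Matrix (Fin n) (Fin n) (MvPolynomial (Fin k) ℤ)) (d : Fin k →₀ ℕ) (i : Fin n)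
    (l : (Fin k → ℝ) → ℝ) (hl : Integrable l (cub k))
    (hP : ∀ᵐ t ∂(cub k), PB h m (sym P d t) i (l t)) :
    mx (pm h m P d).det ((pm h m P d).adjugate i i) ≤
      Real.log (mM (pm h m P d).det) + ∫ t, l t ∂(cub k) := by
  refine pair_bound _ _ (pm_ne h m hg P d) l hl ?_
  filter_upwards [hP] with t ht
  obtain ⟨Φ, h1, h2⟩ := ht
  refine ⟨Φ, h1, ?_⟩
  filter_upwards [h2] with s hs
  rw [norm_det, norm_adj, hs, norm_mul]

/-- **Lehmer's inequality for families with dominated minors** -/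
theorem family_gap (K : ℝ) (h : Polynomial ℤ) (m : ℕ)
    (hg : ∀ c : ℤ, h ≠ Polynomial.C c * Polynomial.X ^ m) :
    ∃ c : ℝ, 1 < c ∧ ∀ (k n : ℕ) (P : Matrix (Fin n) (Fin n) (MvPolynomial (Fin k) ℤ))
      (d : Fin k →₀ ℕ),
      (∀ i, ∃ l : (Fin k → ℝ) → ℝ, Integrable l (cub k) ∧ ∫ t, l t ∂(cub k) ≤ K ∧
        ∀ᵐ t ∂(cub k), PB h m (sym P d t) i (l t)) →
      mM (pm h m P d).det = 1 ∨ c ≤ mM (pm h m P d).det := by
  obtain ⟨c, hc, hc2, hgap⟩ := fam_gap K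
  refine ⟨c, hc, fun k n P d hP => ?_⟩
  by_cases h1 : mM (pm h m P d).det = 1
  · exact Or.inl h1
  right
  rcases le_or_gt 2 (mM (pm h m P d).det) with h2 | h2
  · exact hc2.trans h2
  obtain ⟨i, p, e, hp, hp1, hpF, hpG⟩ := exists_minor h m hg P d h1 h2
  obtain ⟨l, hl, hlK, hlP⟩ := hP i
  refine hgap _ _ _ p e (pm_ne h m hg P d) ?_ hp hp1 hpF hpG
  have h3 := mx_of_PB h m hg P d i l hl hlP
  linarith

end

end Pool.Agent.W110.PF
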