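import Pool.Agent.W110.PF.C
import Pool.Agent.Y820.LB.Bridge

/-!
# Classes of complex matrices with dominated minors
-/

set_option autoImplicit false
set_option linter.unusedSectionVars false

namespace Pool.Agent.W110.PF

open MeasureTheory Filter
open Pool.Agent.H261R2.CM Pool.Agent.W242.IM Pool.Agent.W110.PG
open Pool.Agent.Y820.LB

noncomputable section

variable {n : ℕ}

/-! ### Diagonalisable matrices -/

theorem Dm_eq (h : Polynomial ℤ) (m : ℕ) {A S T : Matrix (Fin n) (Fin n) ℂ} {d : Fin n → ℂ}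
    (hST : S * T = 1) (hA : A = S * Matrix.diagonal d * T) (z : ℂ) :
    Dm h m A z = S * Matrix.diagonal (fun j => (toC h).eval z - d j * z ^ m) * T := by
  unfold Dm
  set x := (toC h).eval z
  set y := z ^ m
  have h1 : x • (1 : Matrix (Fin n) (Fin n) ℂ) = S * Matrix.diagonal (fun _ => x) * T := by
    have h2 : Matrix.diagonal (fun _ : Fin n => x) = x • (1 : Matrix (Fin n) (Fin n) ℂ) := by
      rw [← Matrix.diagonal_one, ← Matrix.diagonal_smul]
      congr 1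
      ext
      simp
    rw [h2, Matrix.mul_smul, Matrix.smul_mul, mul_one, hST]
  have h3 : y • A = S * Matrix.diagonal (fun j => d j * y) * T := by
    have h2 : Matrix.diagonal (fun j : Fin n => d j * y) = y • Matrix.diagonal d := by
      rw [← Matrix.diagonal_smul]
      congr 1
      ext j
      simp [mul_comm]
    rw [h2, Matrix.mul_smul, Matrix.smul_mul, ← hA]
  rw [h1, h3, ← Matrix.sub_mul, ← Matrix.mul_sub, Matrix.diagonal_sub]

theorem PB_diag (h : Polynomial ℤ) (m : ℕ) (hk : kp (toC h) m ≠ 0)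
    {A S T : Matrix (Fin n) (Fin n) ℂ} {d : Fin n → ℂ}
    (hST : S * T = 1) (hA : A = S * Matrix.diagonal d * T) (i : Fin n) (L : ℝ)
    (hL : ∑ j, ‖S i j‖ * ‖T j i‖ ≤ L) : PB h m A i (subC (toC h) m L) := by
  refine ⟨fun t => ∑ j, (S i j * T j i) / ((toC h).eval (ez t) - d j * ez t ^ m),
    Dg.dom h m hk S T d L i hL, ?_⟩
  have hall : ∀ᵐ t : ℝ, ∀ j, (fp (toC h) m (d j)).eval (ez t) ≠ 0 :=
    ae_all_iff.mpr fun j => ae_eval_ne _ (fp_ne (toC h) m (d j) hk)
  filter_upwards [hall] with t ht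
  simp only [fp_eval] at ht
  rw [Dm_eq h m hST hA, adjugate_conj S T hST, Matrix.adjugate_diagonal, Matrix.mul_apply,
    Matrix.det_mul, Matrix.det_mul, Matrix.det_diagonal, mul_comm S.det, mul_assoc (∏ _, _),
    ← Matrix.det_mul, hST, Matrix.det_one, mul_one, Finset.mul_sum]
  refine Finset.sum_congr rfl fun j _ => ?_
  rw [Matrix.mul_diagonal]
  have h1 := ht j
  have h2 : (∏ k, ((toC h).eval (ez t) - d k * ez t ^ m)) = ((toC h).eval (ez t) - d j * ez t ^ m) *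
      ∏ k ∈ Finset.univ.erase j, ((toC h).eval (ez t) - d k * ez t ^ m) :=
    (Finset.mul_prod_erase Finset.univ (fun k => (toC h).eval (ez t) - d k * ez t ^ m)
      (Finset.mem_univ j)).symm
  rw [h2]
  generalize (∏ k ∈ Finset.univ.erase j, ((toC h).eval (ez t) - d k * ez t ^ m)) = x
  calc S i j * x * T j i = (S i j * T j i / ((toC h).eval (ez t) - d j * ez t ^ m) *
        ((toC h).eval (ez t) - d j * ez t ^ m)) * x := by rw [div_mul_cancel₀ _ h1]; ring
    _ = _ := by ring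

/-! ### Adapted inner products -/

/-- the data of an adapted inner product -/
structure AdC (A S T B E : Matrix (Fin n) (Fin n) ℂ) : Prop where
  one : S * T = 1
  eq : A = S * B * T
  herm : E.conjTranspose = E
  idem : E * E = E
  comm : B * E = E * B
  ctr : ∀ x, ‖act (B * E) x‖ ≤ ‖act E x‖
  exp : ∀ x, ‖act (1 - E) x‖ ≤ ‖act (B * (1 - E)) x‖

variable {A S T B E : Matrix (Fin n) (Fin n) ℂ} {L : ℝ}

theorem AdC.ctrE (h : AdC A S T B E) : Ctr E := by
  intro x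
  have h1 := split_orth E h.herm h.idem x
  have h2 : ‖act E x‖ ^ 2 ≤ ‖x‖ ^ 2 := by rw [h1]; linarith [sq_nonneg ‖act (1 - E) x‖]
  exact (sq_le_sq₀ (norm_nonneg _) (norm_nonneg _)).mp h2

theorem AdC.ctrE' (h : AdC A S T B E) : Ctr (1 - E) := by
  intro x
  have h1 := split_orth E h.herm h.idem x
  have h2 : ‖act (1 - E) x‖ ^ 2 ≤ ‖x‖ ^ 2 := by rw [h1]; linarith [sq_nonneg ‖act E x‖]
  exact (sq_le_sq₀ (norm_nonneg _) (norm_nonneg _)).mp h2

theorem AdC.ctrIn (h : AdC A S T B E) : Ctr (B * E) := fun x => (h.ctr x).trans (h.ctrE x)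

theorem AdC.expOut (h : AdC A S T B E) (x : EuclideanSpace ℂ (Fin n)) :
    ‖x‖ ≤ ‖act (B * (1 - E) + E) x‖ := by
  have h1 : inner ℂ (act (B * (1 - E)) x) (act E x) = (0 : ℂ) := by
    refine inner_eq_zero_of _ _ ?_ x
    have h2 : E * (B * (1 - E)) = 0 := by
      rw [← mul_assoc, ← h.comm, mul_assoc, Matrix.mul_sub, h.idem, mul_one, sub_self, mul_zero]
    have h3 : (B * (1 - E)).conjTranspose * E = (E * (B * (1 - E))).conjTranspose := by
      rw [Matrix.conjTranspose_mul E, h.herm]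
    rw [h3, h2, Matrix.conjTranspose_zero]
  have h4 := norm_sq_add _ _ h1
  rw [← act_add] at h4
  have h5 := split_orth E h.herm h.idem x
  have h6 : ‖act (1 - E) x‖ ^ 2 ≤ ‖act (B * (1 - E)) x‖ ^ 2 :=
    pow_le_pow_left₀ (norm_nonneg _) (h.exp x) 2
  have h7 : ‖x‖ ^ 2 ≤ ‖act (B * (1 - E) + E) x‖ ^ 2 := by rw [h4, h5]; linarith
  exact (sq_le_sq₀ (norm_nonneg _) (norm_nonneg _)).mp h7

theorem AdC.inv_ctr (h : AdC A S T B E) :
    Ctr (B * (1 - E) + E)⁻¹ ∧ (B * (1 - E) + E)⁻¹ * (B * (1 - E) + E) = 1 := by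
  have h1 : IsUnit (B * (1 - E) + E).det := isUnit_iff_ne_zero.mpr (det_ne_of_exp _ h.expOut)
  refine ⟨fun x => ?_, Matrix.nonsing_inv_mul _ h1⟩
  have h2 := h.expOut (act (B * (1 - E) + E)⁻¹ x)
  rwa [← act_mul, Matrix.mul_nonsing_inv _ h1, act_one] at h2

theorem AdC.dom (h : AdC A S T B E) (s t : EuclideanSpace ℂ (Fin n)) (hst : ‖s‖ * ‖t‖ ≤ L) :
    Dom (fun τ => ‖inner ℂ t (act (ez τ • (1 : Matrix (Fin n) (Fin n) ℂ) - B)⁻¹ s)‖)
      (8 * (Real.log 2 + Real.log (1 + L))) := by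
  have k1 := dom_in (B * E) h.ctrIn (act E s) t L
    (le_trans (mul_le_mul_of_nonneg_right (h.ctrE s) (norm_nonneg _)) hst)
  have k2 := dom_out (B * (1 - E) + E) _ h.inv_ctr.1 h.inv_ctr.2 (act (1 - E) s) t L
    (le_trans (mul_le_mul_of_nonneg_right (h.ctrE' s) (norm_nonneg _)) hst)
  refine ((k1.add k2).le (by linarith)).mono ?_
  filter_upwards [ae_det_ne (B * E), ae_det_ne (B * (1 - E) + E)] with τ h1 h2
  refine ⟨norm_nonneg _, ?_⟩
  rw [inv_split B E h.idem h.comm _ h1 h2, act_add, act_mul, act_mul, inner_add_right]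
  exact norm_add_le _ _

theorem AdC.inv (h : AdC A S T B E) (z : ℂ)
    (hz : (z • (1 : Matrix (Fin n) (Fin n) ℂ) - B).det ≠ 0) :
    (z • (1 : Matrix (Fin n) (Fin n) ℂ) - A)⁻¹ =
      S * (z • (1 : Matrix (Fin n) (Fin n) ℂ) - B)⁻¹ * T := by
  have hz' : IsUnit (z • (1 : Matrix (Fin n) (Fin n) ℂ) - B).det := isUnit_iff_ne_zero.mpr hz
  have hTS : T * S = 1 := mul_eq_one_comm.mp h.one
  refine Matrix.inv_eq_left_inv ?_
  have e1 : z • (1 : Matrix (Fin n) (Fin n) ℂ) - A =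
      S * (z • (1 : Matrix (Fin n) (Fin n) ℂ) - B) * T := by
    rw [h.eq, Matrix.mul_sub, Matrix.sub_mul, Matrix.mul_smul, mul_one, Matrix.smul_mul, h.one]
  rw [e1]
  calc S * (z • (1 : Matrix (Fin n) (Fin n) ℂ) - B)⁻¹ * T *
        (S * (z • (1 : Matrix (Fin n) (Fin n) ℂ) - B) * T)
      = S * (z • (1 : Matrix (Fin n) (Fin n) ℂ) - B)⁻¹ * (T * S) *
        (z • (1 : Matrix (Fin n) (Fin n) ℂ) - B) * T := by simp only [mul_assoc]
    _ = S * ((z • (1 : Matrix (Fin n) (Fin n) ℂ) - B)⁻¹ *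
        (z • (1 : Matrix (Fin n) (Fin n) ℂ) - B)) * T := by rw [hTS]; simp only [mul_assoc, one_mul]
    _ = 1 := by rw [Matrix.nonsing_inv_mul _ hz', mul_one, h.one]

theorem PB_adapted (h : AdC A S T B E) (i : Fin n)
    (hL : (∑ j, ‖S i j‖ ^ 2) * (∑ j, ‖T j i‖ ^ 2) ≤ L ^ 2) (hL0 : 0 ≤ L) :
    PB Polynomial.X 0 A i (8 * (Real.log 2 + Real.log (1 + L))) := by
  have hX : (toC Polynomial.X) = Polynomial.X := by simp [toC]
  set e := EuclideanSpace.single i (1 : ℂ) with he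
  refine ⟨fun τ => inner ℂ (act S.conjTranspose e)
      (act (ez τ • (1 : Matrix (Fin n) (Fin n) ℂ) - B)⁻¹ (act T e)), h.dom _ _ ?_, ?_⟩
  · have n1 : ‖act T e‖ ^ 2 = ∑ j, ‖T j i‖ ^ 2 := by
      rw [norm_act_sq]
      refine Finset.sum_congr rfl fun j _ => ?_
      have h3 : (T.mulVec (WithLp.ofLp e)) j = T j i := by
        have h4 : WithLp.ofLp e = (Pi.single i (1 : ℂ) : Fin n → ℂ) := rfl
        rw [h4]
        simp
      rw [h3]
    have n2 : ‖act S.conjTranspose e‖ ^ 2 = ∑ j, ‖S i j‖ ^ 2 := by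
      rw [norm_act_sq]
      refine Finset.sum_congr rfl fun j _ => ?_
      have h3 : (S.conjTranspose.mulVec (WithLp.ofLp e)) j = star (S i j) := by
        have h4 : WithLp.ofLp e = (Pi.single i (1 : ℂ) : Fin n → ℂ) := rfl
        rw [h4]
        simp
      rw [h3, norm_star]
    have n3 : (‖act T e‖ * ‖act S.conjTranspose e‖) ^ 2 ≤ L ^ 2 := by
      rw [mul_pow, n1, n2, mul_comm]
      exact hL
    exact (sq_le_sq₀ (by positivity) hL0).mp n3
  · filter_upwards [ae_det_ne B, ae_det_ne A] with τ hB hA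
    unfold Dm
    rw [hX, Polynomial.eval_X, pow_zero, one_smul, ← act_star, ← act_mul, ← act_mul,
      ← h.inv _ hB, act_inner]
    have h5 : ∑ k, ∑ j, star (e k) * (ez τ • (1 : Matrix (Fin n) (Fin n) ℂ) - A)⁻¹ k j * e j =
        (ez τ • (1 : Matrix (Fin n) (Fin n) ℂ) - A)⁻¹ i i := by
      rw [Finset.sum_eq_single i, Finset.sum_eq_single i]
      · rw [he]
        simp
      · intro j _ hj
        rw [he]
        simp [hj]
      · simp
      · intro k _ hk
        refine Finset.sum_eq_zero fun j _ => ?_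
        rw [he]
        simp [hk]
      · simp
    rw [h5, Matrix.inv_def, Matrix.smul_apply, smul_eq_mul, Ring.inverse_eq_inv', ← mul_assoc,
      mul_inv_cancel₀ hA, one_mul]

theorem AdC_of (A : Matrix (Fin n) (Fin n) ℂ) (S T B E : Matrix (Fin n) (Fin n) ℂ)
    (h1 : S * T = 1) (h2 : A = S * B * T)
    (h3 : E.conjTranspose = E) (h4 : E * E = E) (h5 : B * E = E * B)
    (h6 : ∀ x : Fin n → ℂ, ∑ i, ‖((B * E).mulVec x) i‖ ^ 2 ≤ ∑ i, ‖(E.mulVec x) i‖ ^ 2)
    (h7 : ∀ x : Fin n → ℂ, ∑ i, ‖((1 - E).mulVec x) i‖ ^ 2 ≤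
      ∑ i, ‖((B * (1 - E)).mulVec x) i‖ ^ 2) : AdC A S T B E :=
  ⟨h1, h2, h3, h4, h5, act_le _ _ h6, act_le _ _ h7⟩

/-! ### The constants -/

theorem PB.mono {h : Polynomial ℤ} {m : ℕ} {A : Matrix (Fin n) (Fin n) ℂ} {i : Fin n} {c c' : ℝ}
    (hP : PB h m A i c) (hc : c ≤ c') : PB h m A i c' := by
  obtain ⟨Φ, h1, h2⟩ := hP
  exact ⟨Φ, h1.le hc, h2⟩

theorem subC_le (h : Polynomial ℂ) (m : ℕ) : ∃ C : ℝ, ∀ L : ℝ, 0 ≤ L →
    subC h m L ≤ C + 9 * Real.log (1 + L) := by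
  set N : ℕ := max h.natDegree m with hN
  refine ⟨8 * (Real.log 2 + Real.log (1 + N)) + (Real.log (1 + m) +
    ∫ t in (0:ℝ)..1, |Real.log ‖(kp h m).eval (ez t)‖|), fun L hL => ?_⟩
  unfold subC
  have hN0 : (0:ℝ) ≤ N := Nat.cast_nonneg _
  have hm0 : (0:ℝ) ≤ m := Nat.cast_nonneg _
  have h1 : Real.log (1 + L * N) ≤ Real.log (1 + N) + Real.log (1 + L) := by
    rw [← Real.log_mul (by positivity) (by positivity)]
    refine Real.log_le_log (by positivity) ?_
    nlinarith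
  have h2 : Real.log (1 + m * L) ≤ Real.log (1 + m) + Real.log (1 + L) := by
    rw [← Real.log_mul (by positivity) (by positivity)]
    refine Real.log_le_log (by positivity) ?_
    nlinarith
  rw [← hN]
  linarith

end

end Pool.Agent.W110.PF
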