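import Pool.Agent.W110.PF.E

/-!
# Bounded companions of the denominators of resolvent entries of families
-/

set_option autoImplicit false
set_option linter.unusedSectionVars false

namespace Pool.Agent.W110.PF

open MeasureTheory Filter
open Pool.Agent.H261R2.CM Pool.Agent.W242.IM Pool.Agent.W110.PG

noncomputable section

variable {k n : ℕ}

/-- the mean of the logarithm of a constant -/
def ML {k n : ℕ} (K : ℝ) (C : ℝ → Matrix (Fin n) (Fin n) ℂ → Prop)
    (A : (Fin k → ℝ) → Matrix (Fin n) (Fin n) ℂ) : Prop :=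
  ∃ L : (Fin k → ℝ) → ℝ, (∀ t, 0 ≤ L t) ∧
    IntegrableOn (fun t => Real.log (1 + L t)) (Set.Icc (0 : Fin k → ℝ) 1) ∧
    ∫ t in Set.Icc (0 : Fin k → ℝ) 1, Real.log (1 + L t) ≤ K ∧
    ∀ᵐ t ∂(volume.restrict (Set.Icc (0 : Fin k → ℝ) 1)), C (L t) (A t)

/-- the denominators of the resolvent entries -/
def RD (h : Polynomial ℤ) (m : ℕ) (κ : ℝ → ℝ)
    (C : ∀ n : ℕ, Fin n → ℝ → Matrix (Fin n) (Fin n) ℂ → Prop) : Set ℝ :=
  {x : ℝ | ∃ (k n : ℕ) (P : Matrix (Fin n) (Fin n) (MvPolynomial (Fin k) ℤ)) (d : Fin k →₀ ℕ)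
    (i : Fin n) (D a b : MvPolynomial (Fin (k + 1)) ℤ), (pm h m P d).det = D * a ∧
    (pm h m P d).adjugate i i = D * b ∧ b ≠ 0 ∧ IsRelPrime a b ∧
    ML (κ (mM a)) (C n i) (sym P d) ∧ x = mM a}

theorem RD_BC (h : Polynomial ℤ) (m : ℕ) (hg : ∀ c : ℤ, h ≠ Polynomial.C c * Polynomial.X ^ m)
    (κ : ℝ → ℝ) (hκ : Monotone κ)
    (C : ∀ n : ℕ, Fin n → ℝ → Matrix (Fin n) (Fin n) ℂ → Prop) (α : ℝ)
    (hC : ∀ (n : ℕ) (i : Fin n) (L : ℝ) (A : Matrix (Fin n) (Fin n) ℂ), 0 ≤ L → C n i L A →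
      PB h m A i (α + 9 * Real.log (1 + L))) :
    Pool.Agent.TH845.KN.BC (RD h m κ C) := by
  intro B
  refine ⟨Real.log (max B 1) + (α + 9 * κ (max B 1)), ?_⟩
  rintro x ⟨⟨k, n, P, d, i, D, a, b, h1, h2, hb, hab, ⟨L, hL0, hLi, hLK, hL⟩, rfl⟩, hB⟩
  have hF := pm_ne h m hg P d
  have hD0 : D ≠ 0 := by
    rintro rfl
    rw [zero_mul] at h1
    exact hF h1
  have ha0 : a ≠ 0 := by
    rintro rfl
    rw [mul_zero] at h1
    exact hF h1
  have hLi' : Integrable (fun t => Real.log (1 + L t)) (cub k) := hLi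
  have h3 := mx_of_PB h m hg P d i (fun t => α + 9 * Real.log (1 + L t))
    ((integrable_const α).add (hLi'.const_mul 9)) (by
      filter_upwards [hL] with t ht
      exact hC n i (L t) _ (hL0 t) ht)
  rw [integral_add (integrable_const α) (hLi'.const_mul 9),
    integral_const_mul (9 : ℝ) (fun t => Real.log (1 + L t)), integral_const,
    probReal_univ, one_smul] at h3
  have h4 : ∫ t, Real.log (1 + L t) ∂(cub k) ≤ κ (mM a) := hLK
  have h5 := mx_mul D a b hD0 ha0
  rw [← h1, ← h2] at h5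
  have ha1 := one_le_mM a ha0
  have hD1 := one_le_mM D hD0
  have h6 : Real.log (mM (pm h m P d).det) = Real.log (mM D) + Real.log (mM a) := by
    rw [h1, mM_mul D a hD0 ha0, Real.log_mul (by linarith) (by linarith)]
  have hB' : mM a ≤ max B 1 := hB.le.trans (le_max_left _ _)
  have h7 : Real.log (mM a) ≤ Real.log (max B 1) := Real.log_le_log (by linarith) hB'
  have h8 : κ (mM a) ≤ κ (max B 1) := hκ hB'
  exact ⟨k + 1, by omega, a, b, ha0, hb, hab, by linarith, rfl⟩

theorem RD_mem (h : Polynomial ℤ) (m : ℕ) (hg : ∀ c : ℤ, h ≠ Polynomial.C c * Polynomial.X ^ m)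
    (κ : ℝ → ℝ) (C : ∀ n : ℕ, Fin n → ℝ → Matrix (Fin n) (Fin n) ℂ → Prop)
    (P : Matrix (Fin n) (Fin n) (MvPolynomial (Fin k) ℤ)) (d : Fin k →₀ ℕ) (i : Fin n)
    (hG : (pm h m P d).adjugate i i ≠ 0)
    (hD : ∀ D, D ∣ (pm h m P d).det → D ∣ (pm h m P d).adjugate i i → mM D = 1)
    (hM : ML (κ (mM (pm h m P d).det)) (C n i) (sym P d)) :
    mM (pm h m P d).det ∈ RD h m κ C := by
  have hF := pm_ne h m hg P d
  obtain ⟨a, b, D, hab, ha, hb⟩ :=
    UniqueFactorizationMonoid.exists_reduced_factors _ hF ((pm h m P d).adjugate i i)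
  have hD0 : D ≠ 0 := by
    rintro rfl
    exact hF (by rw [← ha, zero_mul])
  have ha0 : a ≠ 0 := by
    rintro rfl
    exact hF (by rw [← ha, mul_zero])
  have hb0 : b ≠ 0 := by
    rintro rfl
    exact hG (by rw [← hb, mul_zero])
  have h1 : mM D = 1 := hD D ⟨a, ha.symm⟩ ⟨b, hb.symm⟩
  have h2 : mM (pm h m P d).det = mM a := by rw [← ha, mM_mul D a hD0 ha0, h1, one_mul]
  rw [h2] at hM ⊢
  exact ⟨k, n, P, d, i, D, a, b, ha.symm, hb.symm, hb0, hab, hM, rfl⟩

/-! ### The minors -/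

theorem pn_adj (h : Polynomial ℤ) (m : ℕ) {R : Type*} [CommRing R] (u : R)
    (P : Matrix (Fin (n + 1)) (Fin (n + 1)) R) (i : Fin (n + 1)) :
    (pn h m u P).adjugate i i = (pn h m u (P.submatrix i.succAbove i.succAbove)).det := by
  rw [Matrix.adjugate_fin_succ_eq_det_submatrix, Even.neg_one_pow ⟨(i : ℕ), rfl⟩, one_mul]
  congr 1
  ext1 j l
  unfold pn
  simp only [Matrix.submatrix_apply, Matrix.of_apply, (Fin.succAbove_right_injective).eq_iff]

theorem adj_ne (h : Polynomial ℤ) (m : ℕ) (hg : ∀ c : ℤ, h ≠ Polynomial.C c * Polynomial.X ^ m)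
    (P : Matrix (Fin n) (Fin n) (MvPolynomial (Fin k) ℤ)) (d : Fin k →₀ ℕ) (i : Fin n) :
    (pm h m P d).adjugate i i ≠ 0 := by
  obtain ⟨a, -, ha⟩ := const_dvd (MvPolynomial (Fin k) ℤ) h m hg
  intro h0
  have h1 := fs_adj h m P d i
  rw [h0, map_zero] at h1
  cases n with
  | zero => exact i.elim0
  | succ l =>
    rw [pn_adj] at h1
    exact (ha l _ _).1 (mono_ne d) h1.symm

/-- the degree in the distinguished variable -/
theorem natDegree_det_le (h : Polynomial ℤ) (m : ℕ) {R : Type*} [CommRing R] (u : R)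
    (P : Matrix (Fin n) (Fin n) R) (hm : m < h.natDegree) :
    (pn h m u P).det.natDegree ≤ n * h.natDegree := by
  have h1 : ∀ i j, ((pn h m u P) i j).natDegree ≤ h.natDegree := by
    intro i j
    unfold pn
    rw [Matrix.of_apply]
    refine (Polynomial.natDegree_sub_le _ _).trans (max_le ?_ ?_)
    · split_ifs
      · refine Polynomial.natDegree_mul_le.trans ?_
        rw [Polynomial.natDegree_C, add_zero]
        exact Polynomial.natDegree_map_le
      · simp
    · refine Polynomial.natDegree_mul_le.trans ?_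
      rw [Polynomial.natDegree_C, add_zero]
      exact (Polynomial.natDegree_X_pow_le m).trans hm.le
  rw [Matrix.det_apply']
  refine Polynomial.natDegree_sum_le_of_forall_le _ _ fun σ _ => ?_
  refine Polynomial.natDegree_mul_le.trans ?_
  rw [Polynomial.natDegree_intCast, zero_add]
  refine (Polynomial.natDegree_prod_le _ _).trans ?_
  refine (Finset.sum_le_card_nsmul _ _ h.natDegree fun i _ => h1 (σ i) i).trans ?_
  rw [Finset.card_univ, Fintype.card_fin, smul_eq_mul]

/-- irreducible determinants divide no minor -/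
theorem irr_gcd (h : Polynomial ℤ) (m : ℕ) (hm : m < h.natDegree)
    (P : Matrix (Fin n) (Fin n) (MvPolynomial (Fin k) ℤ)) (d : Fin k →₀ ℕ) (i : Fin n)
    (hF : Irreducible (pm h m P d).det) :
    ∀ D, D ∣ (pm h m P d).det → D ∣ (pm h m P d).adjugate i i → mM D = 1 := by
  have hg : ∀ c : ℤ, h ≠ Polynomial.C c * Polynomial.X ^ m := by
    intro c hc
    rw [hc] at hm
    have := Polynomial.natDegree_C_mul_X_pow_le c m
    omega
  intro D hD1 hD2
  rcases hF.dvd_iff.mp hD1 with h1 | h1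
  · rw [J.mM_associated (associated_one_iff_isUnit.mpr h1), ← MvPolynomial.C_1,
      J.mM_C one_ne_zero]
    simp
  · exfalso
    have h2 : (pm h m P d).det ∣ (pm h m P d).adjugate i i := h1.dvd.trans hD2
    rw [← fs_dvd, fs_det, fs_adj] at h2
    have h3 : (pn h m (MvPolynomial.monomial d 1) P).adjugate i i ≠ 0 := by
      rw [← fs_adj]
      intro h4
      exact adj_ne h m hg P d i (fs_inj (by rw [h4, map_zero]))
    have h4 := Polynomial.natDegree_le_of_dvd h2 h3
    cases n with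
    | zero => exact i.elim0
    | succ l =>
      rw [pn_adj] at h4
      have h5 := natDegree_det_le h m (MvPolynomial.monomial d 1 : MvPolynomial (Fin k) ℤ)
        (P.submatrix i.succAbove i.succAbove) hm
      have h6 := top_coeff h m (MvPolynomial.monomial d 1 : MvPolynomial (Fin k) ℤ) P hm
      have h7 : (l + 1) * h.natDegree ≤
          (pn h m (MvPolynomial.monomial d 1 : MvPolynomial (Fin k) ℤ) P).det.natDegree := by
        refine Polynomial.le_natDegree_of_ne_zero ?_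
        rw [h6]
        refine pow_ne_zero _ (mul_ne_zero ?_ (mono_ne d))
        refine Int.cast_ne_zero.mpr (Polynomial.leadingCoeff_ne_zero.mpr ?_)
        rintro rfl
        simp at hm
      have h8 : (l + 1) * h.natDegree ≤ l * h.natDegree := h7.trans (h4.trans h5)
      nlinarith

end

end Pool.Agent.W110.PF
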